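import Pool.Agent.Helper66.R7.Sheet

/-! Row SV7: the number of members of the family T with `q ∣ A`, `q ∣ B`. -/

set_option autoImplicit false

namespace Pool.Helper66.R7

open Pool.Helper17.RS (MM Cong Box yy)

namespace SV7

open Polynomial

theorem fib_card (q : ℕ) (N : ℕ) (T : Finset ℕ) (hT : ∀ t ∈ T, t < N)
    (h : ∀ t ∈ T, ∀ t' ∈ T, t % q = t' % q) : T.card ≤ N / q + 1 := by
  have h1 : Set.MapsTo (fun t : ℕ => t / q) T (Finset.range (N / q + 1)) := by
    intro t ht
    show t / q ∈ ((Finset.range (N / q + 1) : Finset ℕ) : Set ℕ)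
    rw [Finset.mem_coe, Finset.mem_range]
    have := Nat.div_le_div_right (c := q) (hT t ht).le
    omega
  have h2 : Set.InjOn (fun t : ℕ => t / q) (T : Set ℕ) := by
    intro t ht t' ht' he
    have e1 : t / q = t' / q := he
    have e2 := h t ht t' ht'
    rw [← Nat.div_add_mod t q, ← Nat.div_add_mod t' q, e1, e2]
  have h3 := Finset.card_le_card_of_injOn (fun t : ℕ => t / q) h1 h2
  rwa [Finset.card_range] at h3

open Classical in
theorem cls_card (q : ℕ) [Fact q.Prime] (N : ℕ) (c M : ℤ) (hM : ((M : ℤ) : ZMod q) ≠ 0)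
    (S : Finset (ZMod q)) :
    ((Finset.range N).filter (fun t : ℕ => ((c + M * (t : ℤ) : ℤ) : ZMod q) ∈ S)).card ≤
      S.card * (N / q + 1) := by
  have hsub : (Finset.range N).filter (fun t : ℕ => ((c + M * (t : ℤ) : ℤ) : ZMod q) ∈ S) ⊆
      S.biUnion (fun s => (Finset.range N).filter
        (fun t : ℕ => ((c + M * (t : ℤ) : ℤ) : ZMod q) = s)) := by
    intro t ht
    rw [Finset.mem_filter] at ht
    rw [Finset.mem_biUnion]
    exact ⟨_, ht.2, Finset.mem_filter.2 ⟨ht.1, rfl⟩⟩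
  refine (Finset.card_le_card hsub).trans (Finset.card_biUnion_le_card_mul _ _ _ ?_)
  intro s _
  apply fib_card q N
  · intro t ht
    exact Finset.mem_range.1 (Finset.mem_filter.1 ht).1
  · intro t ht t' ht'
    have e1 := (Finset.mem_filter.1 ht).2
    have e2 := (Finset.mem_filter.1 ht').2
    rw [← e2] at e1
    push_cast at e1
    have e3 : ((M : ℤ) : ZMod q) * (t : ZMod q) = ((M : ℤ) : ZMod q) * (t' : ZMod q) := by
      linear_combination e1
    have e4 := mul_left_cancel₀ hM e3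
    rwa [ZMod.natCast_eq_natCast_iff'] at e4

section Field

variable {F : Type*} [Field F]

/-- the sextic for `U` -/
noncomputable def PP (W : F) : F[X] :=
  C 101433884965577345670500600499614516375062500 * X ^ 6 +
    C (-6561229608117353613572063688280289204520000 * W) * X ^ 5 +
    C (194238615731936644548162467290996547856768 * W ^ 2) * X ^ 4 +
    C (-3183988239445423316104964448378105467904 * W ^ 3) * X ^ 3 +
    C (28880288540873436072180025510222537728 * W ^ 4) * X ^ 2 +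
    C (-136505313546474639228408625029120000 * W ^ 5) * X +
    C (309495482194773290464198656000000 * W ^ 6)

theorem PP_deg (W : F) : (PP W).natDegree ≤ 6 := by
  unfold PP
  compute_degree

theorem PP_coeff (W : F) :
    (PP W).coeff 6 = 101433884965577345670500600499614516375062500 := by
  unfold PP
  compute_degree!

theorem PP_ne (hL : (101433884965577345670500600499614516375062500 : F) ≠ 0) (W : F) :
    PP W ≠ 0 := by
  intro h
  have h1 := PP_coeff W
  rw [h, coeff_zero] at h1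
  exact hL h1.symm

variable [DecidableEq F]

theorem PP_card (W : F) : (PP W).roots.toFinset.card ≤ 6 :=
  (Multiset.toFinset_card_le _).trans ((card_roots' _).trans (PP_deg W))

/-- the solutions of `a x ^ 2 + k x + m = 0` -/
noncomputable def q2 (a k m : F) : Finset F := (C a * X ^ 2 + C k * X + C m : F[X]).roots.toFinset

theorem q2_deg (a k m : F) : (C a * X ^ 2 + C k * X + C m : F[X]).natDegree ≤ 2 := by
  compute_degree

theorem q2_ne (a k m : F) (h3 : a ≠ 0) : (C a * X ^ 2 + C k * X + C m : F[X]) ≠ 0 := by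
  intro h
  have h1 : (C a * X ^ 2 + C k * X + C m : F[X]).coeff 2 = a := by
    compute_degree!
  rw [h, coeff_zero] at h1
  exact h3 h1.symm

theorem q2_card (a k m : F) : (q2 a k m).card ≤ 2 :=
  (Multiset.toFinset_card_le _).trans ((card_roots' _).trans (q2_deg a k m))

theorem mem_q2 (a k m x : F) (h3 : a ≠ 0) (h : a * x ^ 2 + k * x + m = 0) : x ∈ q2 a k m := by
  unfold q2
  rw [Multiset.mem_toFinset, mem_roots (q2_ne a k m h3)]
  simpa [IsRoot] using h

/-- the classes of `u` -/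
noncomputable def SS (w : F) : Finset F :=
  (PP (w ^ 2)).roots.toFinset.biUnion fun c => q2 1 0 (-c)

theorem SS_card (w : F) : (SS w).card ≤ 12 := by
  refine (Finset.card_biUnion_le_card_mul _ _ 2 fun c _ => q2_card _ _ _).trans ?_
  have := PP_card (w ^ 2)
  omega

/-- the classes of `v` -/
noncomputable def RR (w u : F) : Finset F :=
  (q2 31080259 (-1596793968 * u ^ 2 + 356202 * w ^ 2)
    (29318881284 * (u ^ 2) ^ 2 - 315775152 * u ^ 2 * w ^ 2 + 2669139 * (w ^ 2) ^ 2)).biUnion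
    fun c => q2 1 0 (-c)

theorem RR_card (w u : F) : (RR w u).card ≤ 4 := by
  refine (Finset.card_biUnion_le_card_mul _ _ 2 fun c _ => q2_card _ _ _).trans ?_
  have := q2_card 31080259 (-1596793968 * u ^ 2 + 356202 * w ^ 2)
    (29318881284 * (u ^ 2) ^ 2 - 315775152 * u ^ 2 * w ^ 2 + 2669139 * (w ^ 2) ^ 2)
  omega

theorem main (hL : (101433884965577345670500600499614516375062500 : F) ≠ 0)
    (hV : (31080259 : F) ≠ 0) (u v w : F) (hA : GA (u ^ 2) (v ^ 2) (w ^ 2) = 0)
    (hB : GB (u ^ 2) (v ^ 2) (w ^ 2) = 0) : u ∈ SS w ∧ v ∈ RR w u := by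
  constructor
  · unfold SS
    rw [Finset.mem_biUnion]
    refine ⟨u ^ 2, ?_, mem_q2 _ _ _ _ one_ne_zero (by ring)⟩
    rw [Multiset.mem_toFinset, mem_roots (PP_ne hL _)]
    show (PP _).eval (u ^ 2) = 0
    generalize u ^ 2 = U at *
    generalize v ^ 2 = V at *
    generalize w ^ 2 = W at *
    unfold PP
    simp only [eval_add, eval_mul, eval_pow, eval_C, eval_X]
    unfold GA at hA
    unfold GB at hB
    linear_combination
      (7973655108477844098998996685002475 * U ^ 4 + 491577640829083281277905007168800 * U ^ 3 * V -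
      116655258685397893167434627946816 * U ^ 3 * W -
      13239304645753949125977765894400 * U ^ 2 * V ^ 2 -
      12495256796419345121238186404976 * U ^ 2 * V * W +
      1123905257126949105180239868000 * U ^ 2 * W ^ 2 +
      156955281604144169322641652992 * U * V ^ 2 * W +
      136904289076500797770286062464 * U * V * W ^ 2 -
      3664046866676748210767598336 * U * W ^ 3 - 1227411132434076795145830400 * V ^ 2 * W ^ 2 -
      421835916858118574037811200 * V * W ^ 3 + 58256098796091590416281600 * W ^ 4) * hA +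
      (-76270750280843471725464840825 * U ^ 3 + 2573835231637366705336185200 * U ^ 2 * V +
      1697304982631780497883086872 * U ^ 2 * W - 30513463085379808518124336 * U * V * W -
      18861823281627615860147808 * U * W ^ 2 + 238619330915988435123200 * V * W ^ 2 +
      35364500262554866444800 * W ^ 3) * hB
  · unfold RR
    rw [Finset.mem_biUnion]
    refine ⟨v ^ 2, ?_, mem_q2 _ _ _ _ one_ne_zero (by ring)⟩
    apply mem_q2 _ _ _ _ hV
    unfold GA at hA
    linear_combination hA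

end Field

theorem sm (q : ℕ) (hq1 : 1000 < q) (n : ℕ) (h0 : 0 < n) (h1 : n ≤ 1000) :
    (n : ZMod q) ≠ 0 := by
  intro h
  rw [ZMod.natCast_eq_zero_iff] at h
  have := Nat.le_of_dvd h0 h
  omega

theorem hL (q : ℕ) [Fact q.Prime] (hq1 : 1000 < q) :
    (101433884965577345670500600499614516375062500 : ZMod q) ≠ 0 := by
  have e : (101433884965577345670500600499614516375062500 : ZMod q) =
      ((2 : ℕ) : ZMod q) ^ 2 * ((3 : ℕ) : ZMod q) ^ 6 * ((5 : ℕ) : ZMod q) ^ 6 *
        ((7 : ℕ) : ZMod q) ^ 12 * ((11 : ℕ) : ZMod q) ^ 4 * ((13 : ℕ) : ZMod q) ^ 3 *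
        ((17 : ℕ) : ZMod q) ^ 6 * ((61 : ℕ) : ZMod q) ^ 3 * ((97 : ℕ) : ZMod q) ^ 3 := by
    push_cast
    norm_num
  rw [e]
  have h := fun n h0 h1 => sm q hq1 n h0 h1
  refine mul_ne_zero (mul_ne_zero (mul_ne_zero (mul_ne_zero (mul_ne_zero (mul_ne_zero
    (mul_ne_zero (mul_ne_zero ?_ ?_) ?_) ?_) ?_) ?_) ?_) ?_) ?_ <;>
  exact pow_ne_zero _ (h _ (by norm_num) (by norm_num))

theorem hV (q : ℕ) [Fact q.Prime] (hq1 : 1000 < q) : (31080259 : ZMod q) ≠ 0 := by
  have e : (31080259 : ZMod q) = ((7 : ℕ) : ZMod q) ^ 3 * ((31 : ℕ) : ZMod q) ^ 1 *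
      ((37 : ℕ) : ZMod q) ^ 1 * ((79 : ℕ) : ZMod q) ^ 1 := by
    push_cast
    norm_num
  rw [e]
  have h := fun n h0 h1 => sm q hq1 n h0 h1
  refine mul_ne_zero (mul_ne_zero (mul_ne_zero ?_ ?_) ?_) ?_ <;>
  exact pow_ne_zero _ (h _ (by norm_num) (by norm_num))

end SV7

open Classical in
theorem st_SV7 (hC : ST_CERTT) : ST_SV7 := by
  intro N q hq hq1
  haveI : Fact q.Prime := ⟨hq⟩
  have hM : ((MM : ℤ) : ZMod q) ≠ 0 := by
    intro h
    have h1 := (ZMod.intCast_zmod_eq_zero_iff_dvd _ _).1 h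
    unfold MM at h1
    have h2 : q ∣ Nat.factorial 1000 := by exact_mod_cast h1
    rw [hq.dvd_factorial] at h2
    omega
  -- the residue of a parameter
  set res : Fin 3 → ℕ → ZMod q := fun i t => ((tb i + MM * (t : ℤ) : ℤ) : ZMod q) with hres
  have hyy : ∀ (t : Fin 3 → ℕ) (i : Fin 3), ((yy tb t i : ℤ) : ZMod q) = res i (t i) := by
    intro t i
    rfl
  set P : (Fin 3 → ℕ) → Prop := fun t => (q : ℤ) ∣ tA (yy tb t) ∧ (q : ℤ) ∣ tB (yy tb t) with hP
  have hAB : ∀ t, P t →
      GA (res 0 (t 0) ^ 2) (res 1 (t 1) ^ 2) (res 2 (t 2) ^ 2) = 0 ∧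
      GB (res 0 (t 0) ^ 2) (res 1 (t 1) ^ 2) (res 2 (t 2) ^ 2) = 0 := by
    intro t ht
    obtain ⟨h1, h2⟩ := ht
    have hcong : Cong tb (yy tb t) := fun i => ⟨(t i : ℤ), by unfold yy; ring⟩
    obtain ⟨c1, c2, -⟩ := hC _ hcong
    have d1 : (q : ℤ) ∣ GA (yy tb t 0 ^ 2) (yy tb t 1 ^ 2) (yy tb t 2 ^ 2) := by
      rw [← dvd_neg, ← c1]
      exact h1.mul_left _
    have d2 : (q : ℤ) ∣ GB (yy tb t 0 ^ 2) (yy tb t 1 ^ 2) (yy tb t 2 ^ 2) := by
      rw [← c2]
      exact h2.mul_left _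
    have h1' := (ZMod.intCast_zmod_eq_zero_iff_dvd _ _).2 d1
    have h2' := (ZMod.intCast_zmod_eq_zero_iff_dvd _ _).2 d2
    unfold GA at h1'
    unfold GB at h2'
    push_cast at h1' h2'
    rw [hyy, hyy, hyy] at h1' h2'
    unfold GA GB
    exact ⟨h1', h2'⟩
  set A : ℕ → Finset ℕ := fun z => (Finset.range N).filter
    (fun t : ℕ => ((tb 0 + MM * (t : ℤ) : ℤ) : ZMod q) ∈ SV7.SS (res 2 z)) with hA
  set B : ℕ → ℕ → Finset ℕ := fun z x => (Finset.range N).filter
    (fun t : ℕ => ((tb 1 + MM * (t : ℤ) : ℤ) : ZMod q) ∈ SV7.RR (res 2 z) (res 0 x)) with hB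
  set U : Finset (Σ _ : ℕ, Σ _ : ℕ, ℕ) :=
    (Finset.range N).sigma (fun z => (A z).sigma (fun x => B z x)) with hU
  have hAc : ∀ z, (A z).card ≤ 12 * (N / q + 1) := fun z =>
    (SV7.cls_card q N _ _ hM _).trans (Nat.mul_le_mul_right _ (SV7.SS_card _))
  have hBc : ∀ z x, (B z x).card ≤ 4 * (N / q + 1) := fun z x =>
    (SV7.cls_card q N _ _ hM _).trans (Nat.mul_le_mul_right _ (SV7.RR_card _ _))
  have hUc : U.card ≤ 48 * (N / q + 1) ^ 2 * N := by
    rw [hU, Finset.card_sigma]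
    have h1 : ∀ z ∈ Finset.range N,
        ((A z).sigma (fun x => B z x)).card ≤ 48 * (N / q + 1) ^ 2 := by
      intro z _
      rw [Finset.card_sigma]
      refine (Finset.sum_le_card_nsmul _ _ (4 * (N / q + 1)) fun x _ => hBc z x).trans ?_
      rw [smul_eq_mul]
      refine (Nat.mul_le_mul_right _ (hAc z)).trans (le_of_eq ?_)
      ring
    refine (Finset.sum_le_card_nsmul _ _ _ h1).trans (le_of_eq ?_)
    rw [smul_eq_mul, Finset.card_range]
    ring
  have hcard : ((Box N).filter P).card ≤ 48 * (N / q + 1) ^ 2 * N := by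
    refine le_trans ?_ hUc
    apply Finset.card_le_card_of_injOn
      (fun t : Fin 3 → ℕ => (⟨t 2, ⟨t 0, t 1⟩⟩ : Σ _ : ℕ, Σ _ : ℕ, ℕ))
    · intro t ht
      rw [Finset.coe_filter] at ht
      obtain ⟨ht1, ht2⟩ := ht
      unfold Box at ht1
      rw [Fintype.mem_piFinset] at ht1
      obtain ⟨h1, h2⟩ := hAB t ht2
      obtain ⟨m1, m2⟩ := SV7.main (SV7.hL q hq1) (SV7.hV q hq1) _ _ _ h1 h2
      show (⟨t 2, ⟨t 0, t 1⟩⟩ : Σ _ : ℕ, Σ _ : ℕ, ℕ) ∈ (U : Set _)
      rw [Finset.mem_coe, hU, Finset.mem_sigma]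
      refine ⟨ht1 2, ?_⟩
      rw [Finset.mem_sigma]
      exact ⟨Finset.mem_filter.2 ⟨ht1 0, m1⟩, Finset.mem_filter.2 ⟨ht1 1, m2⟩⟩
    · intro t _ t' _ he
      simp only [Sigma.mk.injEq, heq_eq_eq] at he
      obtain ⟨h2, h0, h1⟩ := he
      funext i
      fin_cases i
      · exact h0
      · exact h1
      · exact h2
  refine hcard.trans ?_
  rw [mul_assoc, mul_assoc]
  exact Nat.mul_le_mul_right _ (by norm_num)

end Pool.Helper66.R7
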